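import Pool.Agent.Q230.VRCube

/-!
# MP_dee721_co: exponentially many dimensions of rigid facets

`f n r` is the number of the dimensions of the rigid facets of the Vietoris-Rips complex
`VR(Q_n; r)` of the hypercube.  We show `f n r ≥ 2 ^ (r - 5) + 1` for all `r ≥ 5` and `n ≥ r + 2`.

The complex `VR(Q_6; 4)` has rigid facets `τ`, `τ'` with 8 and 16 vertices which have no pair of
antipodal points `x ∈ τ`, `y ∈ τ'`.  For `a = r - 4` the union of the sets `{u} × τ_u`, `u ∈ Q_a`,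
with `τ_u ∈ {τ, τ'}` and `τ_{-u} = τ_u` is a rigid facet of `VR(Q_(a + 6); r)` and of all
`VR(Q_n; r)`, `n ≥ a + 6`; its number of vertices is any of `2 ^ (a - 1) + 1` numbers.
-/

namespace Pool.Agent.Results.MP_dee721_co.ExponentiallyMany

open Pool.Agent.Q230.VRCube

/-- `f(n; r) ≥ 2 ^ (r - 5) + 1` for `r ≥ 5`, `n ≥ r + 2`; in particular `f(n; r)` is exponential in
`r` for `n` sufficiently large. -/
theorem result :
    (∀ r n : ℕ, 5 ≤ r → r + 2 ≤ n → 2 ^ (r - 5) + 1 ≤ f n r) ∧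
    ∃ c : ℝ, 0 < c ∧ ∃ r₀ : ℕ, ∀ r : ℕ, r₀ ≤ r → ∃ n₀ : ℕ, ∀ n : ℕ, n₀ ≤ n →
      Real.exp (c * r) ≤ f n r := by
  refine ⟨fun r n hr hn => main hr hn, Real.log 2 / 6, by positivity, 6, fun r hr =>
    ⟨r + 2, fun n hn => ?_⟩⟩
  have h1 : ((2 ^ (r - 5) + 1 : ℕ) : ℝ) ≤ f n r := by exact_mod_cast main (by omega) hn
  refine le_trans ?_ h1
  push_cast
  have h2 : Real.exp (Real.log 2 / 6 * r) ≤ (2 : ℝ) ^ (r - 5) := by
    rw [← Real.rpow_natCast, Real.rpow_def_of_pos two_pos]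
    apply Real.exp_le_exp.mpr
    rw [Nat.cast_sub (by omega)]
    have hl : 0 < Real.log 2 := Real.log_pos one_lt_two
    have hr' : (6 : ℝ) ≤ r := by exact_mod_cast hr
    push_cast
    nlinarith
  linarith

end Pool.Agent.Results.MP_dee721_co.ExponentiallyMany
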